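import Pool.Agent.T6.H3.SA.B

/-!
MP_aa036a_co (helper3), part C: the recursion and the number.
-/

set_option autoImplicit false

namespace Pool.Agent.T6.H3.SA

open Equiv

lemma low {n : ℕ} {π : Perm ℕ} (hfix : ∀ i, n ≤ i → π i = i) : ∀ i < n, π i < n := by
  intro i hi
  by_contra hc
  have := hfix (π i) (by omega)
  have := π.injective this
  omega

/-- occurrences in a permutation which fixes all `i ≥ n` -/
lemma P3_lt {n : ℕ} {f : ℕ → ℕ} (h1 : ∀ i, n ≤ i → f i = i) (h2 : ∀ i < n, f i < n) {j k : ℕ}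
    (hjk : j < k) (h : f k < f j) : k < n := by
  by_contra hc
  rw [h1 k (by omega)] at h
  rcases Nat.lt_or_ge j n with hj | hj
  · have := h2 j hj; omega
  · rw [h1 j hj] at h; omega

lemma S_mono {n : ℕ} : S n ⊆ S (n + 1) := fun _ hπ => ⟨fun i hi => hπ.1 i (by omega), hπ.2⟩

lemma S_of_fix {n : ℕ} {π : Perm ℕ} (hπ : π ∈ S (n + 1)) (h : π n = n) : π ∈ S n := by
  refine ⟨fun i hi => ?_, hπ.2⟩
  rcases Nat.eq_or_lt_of_le hi with h' | h'
  · rw [← h', h]
  · exact hπ.1 i h'

/-- add the component `21` -/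
def app (n : ℕ) (σ : Perm ℕ) : Perm ℕ := σ * swap n (n + 1)

lemma app_app (n : ℕ) (σ : Perm ℕ) : app n (app n σ) = σ := by
  unfold app
  rw [mul_assoc, swap_mul_self, mul_one]

lemma app_inj (n : ℕ) : Function.Injective (app n) := fun a b h => by
  rw [← app_app n a, h, app_app]

lemma app_lt {n : ℕ} {σ : Perm ℕ} {i : ℕ} (hi : i < n) : app n σ i = σ i := by
  show σ (swap n (n + 1) i) = σ i
  rw [swap_apply_of_ne_of_ne (by omega) (by omega)]

lemma app_n {n : ℕ} {σ : Perm ℕ} : app n σ n = σ (n + 1) := by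
  show σ (swap n (n + 1) n) = _
  rw [swap_apply_left]

lemma app_n1 {n : ℕ} {σ : Perm ℕ} : app n σ (n + 1) = σ n := by
  show σ (swap n (n + 1) (n + 1)) = _
  rw [swap_apply_right]

lemma app_gt {n : ℕ} {σ : Perm ℕ} {i : ℕ} (hi : n + 1 < i) : app n σ i = σ i := by
  show σ (swap n (n + 1) i) = σ i
  rw [swap_apply_of_ne_of_ne (by omega) (by omega)]

lemma app_mem {n : ℕ} {σ : Perm ℕ} (hσ : σ ∈ S n) : app n σ ∈ S (n + 2) := by
  obtain ⟨h1, h3, h4, q3, q4⟩ := hσ
  have hl := low h1
  have b1 : ∀ i, n ≤ i → i ≤ app n σ i + 1 ∧ app n σ i ≤ i + 1 ∧ n ≤ app n σ i := by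
    intro i hi
    rcases Nat.lt_trichotomy i (n + 1) with h | h | h
    · have : i = n := by omega
      rw [this, app_n, h1 _ (by omega)]; omega
    · rw [h, app_n1, h1 _ (by omega)]; omega
    · rw [app_gt h, h1 _ (by omega)]; omega
  have b2 : ∀ i, i < n → app n σ i < n := fun i hi => by rw [app_lt hi]; exact hl i hi
  have hsq : (fun i => app n σ (app n σ i)) = fun i => σ (σ i) := by
    funext i
    rcases Nat.lt_or_ge i n with h | h
    · rw [app_lt h, app_lt (hl i h)]
    · rcases Nat.lt_trichotomy i (n + 1) with h' | h' | h'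
      · have : i = n := by omega
        rw [this, app_n, h1 (n + 1) (by omega), app_n1, h1 n le_rfl, h1 n le_rfl]
      · rw [h', app_n1, h1 n le_rfl, app_n, h1 (n + 1) (by omega), h1 (n + 1) (by omega)]
      · rw [app_gt h', h1 i (by omega), app_gt h', h1 i (by omega)]
  refine ⟨fun i hi => by rw [app_gt (by omega), h1 i (by omega)], ?_, ?_, ?_, ?_⟩
  · rintro ⟨i, j, k, hij, hjk, hkj, hji⟩
    rcases Nat.lt_or_ge k n with h | h
    · rw [app_lt h, app_lt (by omega)] at hkj
      rw [app_lt (by omega), app_lt (by omega)] at hji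
      exact h3 ⟨i, j, k, hij, hjk, hkj, hji⟩
    · have c1 := b1 k h
      have hj : n ≤ j := by
        by_contra hc
        have := b2 j (by omega)
        omega
      have hi : n ≤ i := by
        by_contra hc
        have := b2 i (by omega)
        omega
      have c2 := b1 i hi
      omega
  · rintro ⟨i, j, k, l, hij, hjk, hkl, h5, h6, h7⟩
    rcases Nat.lt_or_ge l n with h | h
    · rw [app_lt (by omega), app_lt h] at h5
      rw [app_lt h, app_lt (by omega)] at h6
      rw [app_lt (by omega), app_lt (by omega)] at h7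
      exact h4 ⟨i, j, k, l, hij, hjk, hkl, h5, h6, h7⟩
    · have c1 := b1 l h
      have hk : n ≤ k := by
        by_contra hc
        have := b2 k (by omega)
        omega
      have c2 := b1 k hk
      omega
  · rw [hsq]; exact q3
  · rw [hsq]; exact q4

lemma mem_of_app {n : ℕ} {π : Perm ℕ} (hπ : π ∈ S (n + 2)) (ha : π (n + 1) = n)
    (hb : π n = n + 1) : app n π ∈ S n := by
  obtain ⟨h1, h3, h4, q3, q4⟩ := hπ
  have hfix : ∀ i, n ≤ i → app n π i = i := by
    intro i hi
    rcases Nat.lt_trichotomy i (n + 1) with h | h | h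
    · have : i = n := by omega
      rw [this, app_n, ha]
    · rw [h, app_n1, hb]
    · rw [app_gt h, h1 i (by omega)]
  have hl := low hfix
  have hsq : (fun i => app n π (app n π i)) = fun i => π (π i) := by
    funext i
    rcases Nat.lt_or_ge i n with h | h
    · have := hl i h
      rw [app_lt this, app_lt h]
    · rw [hfix i h, hfix i h]
      rcases Nat.lt_trichotomy i (n + 1) with h' | h' | h'
      · have : i = n := by omega
        rw [this, hb, ha]
      · rw [h', ha, hb]
      · rw [h1 i (by omega), h1 i (by omega)]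
  refine ⟨hfix, ?_, ?_, ?_, ?_⟩
  · rintro ⟨i, j, k, hij, hjk, hkj, hji⟩
    have hk := P3_lt hfix hl hjk hkj
    rw [app_lt hk, app_lt (by omega)] at hkj
    rw [app_lt (by omega), app_lt (by omega)] at hji
    exact h3 ⟨i, j, k, hij, hjk, hkj, hji⟩
  · rintro ⟨i, j, k, l, hij, hjk, hkl, h5, h6, h7⟩
    have hl' := P3_lt hfix hl (hjk.trans hkl) h6
    rw [app_lt (by omega), app_lt hl'] at h5
    rw [app_lt hl', app_lt (by omega)] at h6
    rw [app_lt (by omega), app_lt (by omega)] at h7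
    exact h4 ⟨i, j, k, l, hij, hjk, hkl, h5, h6, h7⟩
  · rw [hsq]; exact q3
  · rw [hsq]; exact q4

/-- the nontrivial rotations -/
def R (n : ℕ) : Set (Perm ℕ) := {π | ∃ (k : ℕ) (hk : k ≤ n), 1 ≤ k ∧ k < n ∧ π = rot n k hk}

lemma R_eq (n : ℕ) : R n = (fun k : Fin (n - 1) => rot n (k + 1) (by omega)) '' Set.univ := by
  ext π
  constructor
  · rintro ⟨k, hk, h1, h2, rfl⟩
    obtain ⟨m, rfl⟩ : ∃ m, k = m + 1 := ⟨k - 1, by omega⟩
    exact ⟨⟨m, by omega⟩, trivial, rfl⟩
  · rintro ⟨k, -, rfl⟩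
    exact ⟨k + 1, by omega, by omega, by omega, rfl⟩

lemma R_fin (n : ℕ) : (R n).Finite := by
  rw [R_eq]
  exact Set.finite_univ.image _

lemma R_card (n : ℕ) : (R n).ncard = n - 1 := by
  rw [R_eq, Set.ncard_image_of_injective, Set.ncard_univ, Nat.card_fin]
  intro a b hab
  have h : rot n (a + 1) (by omega) 0 = rot n (b + 1) (by omega) 0 := by
    show (fun k : Fin (n - 1) => rot n (k + 1) (by omega)) a 0 =
      (fun k : Fin (n - 1) => rot n (k + 1) (by omega)) b 0
    rw [hab]
  have h' : rf n (a + 1) 0 = rf n (b + 1) 0 := h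
  have ha := a.2
  have hb := b.2
  apply Fin.ext
  unfold rf at h'
  split_ifs at h' <;> omega

lemma S_succ (n : ℕ) (hn : 1 ≤ n) : S (n + 2) = S (n + 1) ∪ (app n '' S n ∪ R (n + 2)) := by
  ext π
  constructor
  · intro hπ
    by_cases h1 : π (n + 1) = n + 1
    · exact Or.inl (S_of_fix hπ h1)
    by_cases h2 : π (n + 1) = n ∧ π n = n + 1
    · exact Or.inr (Or.inl ⟨app n π, mem_of_app hπ h2.1 h2.2, app_app n π⟩)
    · exact Or.inr (Or.inr (structure_thm (n := n + 2) (by omega) hπ h1 h2))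
  · rintro (h | ⟨σ, hσ, rfl⟩ | ⟨k, hk, -, -, rfl⟩)
    · exact S_mono h
    · exact app_mem hσ
    · exact rot_mem hk

lemma S_one : S 1 = {1} := by
  ext π
  simp only [Set.mem_singleton_iff]
  constructor
  · intro hπ
    ext i
    have hl := low hπ.1
    rcases Nat.eq_zero_or_pos i with h | h
    · have := hl 0 (by omega)
      rw [h]
      show π 0 = 0
      omega
    · exact hπ.1 i h
  · rintro rfl
    refine ⟨fun i _ => rfl, ?_, ?_, ?_, ?_⟩
    · rintro ⟨i, j, k, h1, h2, h3, h4⟩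
      simp only [Perm.coe_one, id_eq] at h3 h4; omega
    · rintro ⟨i, j, k, l, h1, h2, h3, h4, h5, h6⟩
      simp only [Perm.coe_one, id_eq] at h4 h5 h6; omega
    · rintro ⟨i, j, k, h1, h2, h3, h4⟩
      simp only [Perm.coe_one, id_eq] at h3 h4; omega
    · rintro ⟨i, j, k, l, h1, h2, h3, h4, h5, h6⟩
      simp only [Perm.coe_one, id_eq] at h4 h5 h6; omega

lemma S_two : S 2 = S 1 ∪ R 2 := by
  ext π
  constructor
  · intro hπ
    by_cases h1 : π 1 = 1
    · exact Or.inl (S_of_fix hπ h1)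
    · right
      refine ⟨1, by omega, le_rfl, by omega, ?_⟩
      have hl := low hπ.1
      ext i
      show π i = rf 2 1 i
      have e0 := hl 0 (by omega)
      have e1 := hl 1 (by omega)
      have e2 : π 0 ≠ π 1 := fun h => by have := π.injective h; omega
      rcases Nat.lt_trichotomy i 1 with h | h | h
      · have : i = 0 := by omega
        rw [this]; unfold rf; split_ifs <;> omega
      · rw [h]; unfold rf; split_ifs <;> omega
      · rw [hπ.1 i (by omega)]; unfold rf; split_ifs <;> omega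
  · rintro (h | ⟨k, hk, -, -, rfl⟩)
    · exact S_mono h
    · exact rot_mem hk

lemma S_R_disj (n : ℕ) : Disjoint (S (n + 1)) (R (n + 2)) := by
  rw [Set.disjoint_left]
  rintro _ hπ ⟨k, hk, h1, h2, rfl⟩
  have h := hπ.1 (n + 1) le_rfl
  have h' : rf (n + 2) k (n + 1) = n + 1 := h
  unfold rf at h'
  split_ifs at h' <;> omega

lemma app_disj (n : ℕ) (hn : 1 ≤ n) : Disjoint (app n '' S n) (R (n + 2)) := by
  rw [Set.disjoint_left]
  rintro _ ⟨σ, hσ, rfl⟩ ⟨k, hk, h1, h2, h3⟩
  have a1 : app n σ n = n + 1 := by rw [app_n, hσ.1 _ (by omega)]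
  have a2 : app n σ (n + 1) = n := by rw [app_n1, hσ.1 _ le_rfl]
  rw [h3] at a1 a2
  have a1' : rf (n + 2) k n = n + 1 := a1
  have a2' : rf (n + 2) k (n + 1) = n := a2
  unfold rf at a1' a2'
  split_ifs at a1' a2' <;> omega

lemma S_app_disj (n : ℕ) : Disjoint (S (n + 1)) (app n '' S n) := by
  rw [Set.disjoint_left]
  rintro _ hπ ⟨σ, hσ, rfl⟩
  have h := hπ.1 (n + 1) le_rfl
  rw [app_n1, hσ.1 _ le_rfl] at h
  omega

lemma S_fin (n : ℕ) : (S (n + 1)).Finite ∧ (S (n + 2)).Finite := by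
  induction n with
  | zero =>
    have h1 : (S 1).Finite := by rw [S_one]; exact Set.finite_singleton 1
    exact ⟨h1, by rw [show 0 + 2 = 2 from rfl, S_two]; exact h1.union (R_fin 2)⟩
  | succ n ih =>
    refine ⟨ih.2, ?_⟩
    rw [S_succ (n + 1) (by omega)]
    exact ih.2.union ((ih.1.image _).union (R_fin _))

theorem S_card (n : ℕ) : (S (n + 1)).ncard + (n + 3) = 2 * Nat.fib (n + 3) ∧
    (S (n + 2)).ncard + (n + 4) = 2 * Nat.fib (n + 4) := by
  induction n with
  | zero =>
    have h1 : (S 1).ncard = 1 := by rw [S_one, Set.ncard_singleton]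
    have h2 : (S 2).ncard = 2 := by
      rw [S_two, Set.ncard_union_eq (S_R_disj 0) (S_fin 0).1 (R_fin 2), h1, R_card]
    constructor
    · show (S 1).ncard + 3 = 2 * Nat.fib 3
      rw [h1]; rfl
    · show (S 2).ncard + 4 = 2 * Nat.fib 4
      rw [h2]; rfl
  | succ n ih =>
    refine ⟨ih.2, ?_⟩
    have hf := S_fin n
    have h1 : (S (n + 3)).ncard = (S (n + 2)).ncard + ((S (n + 1)).ncard + (n + 2)) := by
      rw [S_succ (n + 1) (by omega), Set.ncard_union_eq
        (Set.disjoint_union_right.2 ⟨S_app_disj (n + 1), S_R_disj (n + 1)⟩) hf.2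
        ((hf.1.image _).union (R_fin _)), Set.ncard_union_eq (app_disj (n + 1) (by omega))
        (hf.1.image _) (R_fin _), Set.ncard_image_of_injective _ (app_inj _), R_card]
      rfl
    have h2 : Nat.fib (n + 5) = Nat.fib (n + 3) + Nat.fib (n + 4) := Nat.fib_add_two
    show (S (n + 3)).ncard + (n + 5) = 2 * Nat.fib (n + 5)
    rw [h1, h2]
    omega

end Pool.Agent.T6.H3.SA
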