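import Mathlib

/-!
MP_aa036a_co (helper3): permutations which strongly avoid `321` and `1342`, part A: the permutations
as permutations of `ℕ` with finite support, and the possible shapes.
-/

set_option autoImplicit false

namespace Pool.Agent.T6.H3.SA

open Equiv

/-- `f` has an occurrence of `321` -/
def P3 (f : ℕ → ℕ) : Prop := ∃ i j k, i < j ∧ j < k ∧ f k < f j ∧ f j < f i

/-- `f` has an occurrence of `1342` -/
def P4 (f : ℕ → ℕ) : Prop := ∃ i j k l, i < j ∧ j < k ∧ k < l ∧ f i < f l ∧ f l < f j ∧ f j < f k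

/-- permutations of `{0, …, n - 1}` which strongly avoid `321` and `1342` -/
def S (n : ℕ) : Set (Perm ℕ) :=
  {π | (∀ i, n ≤ i → π i = i) ∧ ¬ P3 π ∧ ¬ P4 π ∧ ¬ P3 (fun i => π (π i)) ∧ ¬ P4 (fun i => π (π i))}

/-! ## Rotations -/

/-- the rotation `i ↦ i + k` of `{0, …, n - 1}` -/
def rf (n k i : ℕ) : ℕ := if i + k < n then i + k else if i < n then i + k - n else i

lemma rf_rf {n k : ℕ} (hk : k ≤ n) (i : ℕ) : rf n (n - k) (rf n k i) = i := by
  unfold rf
  split_ifs <;> omega

/-- the rotation as a permutation -/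
def rot (n k : ℕ) (hk : k ≤ n) : Perm ℕ where
  toFun := rf n k
  invFun := rf n (n - k)
  left_inv := rf_rf hk
  right_inv i := by
    have := rf_rf (n := n) (k := n - k) (by omega) i
    rwa [Nat.sub_sub_self hk] at this

lemma rf_P3 {n k : ℕ} (hk : k ≤ n) : ¬ P3 (rf n k) := by
  rintro ⟨a, b, c, h1, h2, h3, h4⟩
  unfold rf at h3 h4
  split_ifs at h3 h4 <;> omega

lemma rf_P4 {n k : ℕ} (hk : k ≤ n) : ¬ P4 (rf n k) := by
  rintro ⟨a, b, c, d, h1, h2, h3, h4, h5, h6⟩
  unfold rf at h4 h5 h6
  split_ifs at h4 h5 h6 <;> omega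

lemma rf_sq {n k : ℕ} (hk : k ≤ n) : ∃ k' ≤ n, (fun i => rf n k (rf n k i)) = rf n k' := by
  rcases Nat.lt_or_ge n (2 * k) with h | h
  · refine ⟨2 * k - n, by omega, ?_⟩
    funext i
    unfold rf
    split_ifs <;> omega
  · refine ⟨2 * k, h, ?_⟩
    funext i
    unfold rf
    split_ifs <;> omega

lemma rot_mem {n k : ℕ} (hk : k ≤ n) : rot n k hk ∈ S n := by
  refine ⟨fun i hi => ?_, rf_P3 hk, rf_P4 hk, ?_, ?_⟩
  · show rf n k i = i
    unfold rf
    split_ifs <;> omega
  · obtain ⟨k', hk', h⟩ := rf_sq hk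
    show ¬ P3 (fun i => rf n k (rf n k i))
    rw [h]
    exact rf_P3 hk'
  · obtain ⟨k', hk', h⟩ := rf_sq hk
    show ¬ P4 (fun i => rf n k (rf n k i))
    rw [h]
    exact rf_P4 hk'

/-! ## Comparison of two bijections -/

lemma rank {n : ℕ} {f : ℕ → ℕ} (hf : Set.InjOn f (Set.Iio n)) (hm : ∀ i < n, f i < n) {i : ℕ}
    (hi : i < n) : ((Finset.range n).filter fun j => f j < f i).card = f i := by
  have himg : (Finset.range n).image f = Finset.range n := by
    apply Finset.eq_of_subset_of_card_le
    · intro x hx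
      rw [Finset.mem_image] at hx
      obtain ⟨j, hj, rfl⟩ := hx
      exact Finset.mem_range.2 (hm j (Finset.mem_range.1 hj))
    · rw [Finset.card_image_of_injOn]
      intro a ha b hb hab
      exact hf (by simpa using ha) (by simpa using hb) hab
  have h2 : ((Finset.range n).filter fun j => f j < f i).image f = Finset.range (f i) := by
    ext x
    simp only [Finset.mem_image, Finset.mem_filter, Finset.mem_range]
    constructor
    · rintro ⟨j, ⟨-, h⟩, rfl⟩
      exact h
    · intro hx
      have : x ∈ (Finset.range n).image f := by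
        rw [himg, Finset.mem_range]
        exact hx.trans (hm i hi)
      rw [Finset.mem_image] at this
      obtain ⟨j, hj, rfl⟩ := this
      exact ⟨j, ⟨Finset.mem_range.1 hj, hx⟩, rfl⟩
  have h3 := congrArg Finset.card h2
  rw [Finset.card_range, Finset.card_image_of_injOn] at h3
  · exact h3
  intro a ha b hb hab
  refine hf ?_ ?_ hab
  · have := (Finset.mem_filter.1 ha).1
    simpa using this
  · have := (Finset.mem_filter.1 hb).1
    simpa using this

lemma eq_of_order {n : ℕ} {f g : ℕ → ℕ} (hf : Set.InjOn f (Set.Iio n)) (hfm : ∀ i < n, f i < n)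
    (hg : Set.InjOn g (Set.Iio n)) (hgm : ∀ i < n, g i < n)
    (h : ∀ i < n, ∀ j < n, g i < g j → f i < f j) : ∀ i < n, f i = g i := by
  intro i hi
  rw [← rank hf hfm hi, ← rank hg hgm hi]
  congr 1
  ext j
  simp only [Finset.mem_filter, Finset.mem_range]
  refine and_congr_right fun hj => ⟨fun hlt => ?_, h j hj i hi⟩
  by_contra hc
  rcases Nat.lt_or_ge (g i) (g j) with h1 | h1
  · exact absurd (h i hi j hj h1) (by omega)
  · have h2 : g j = g i := by omega
    have := hg (by simpa using hj) (by simpa using hi) h2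
    rw [this] at hlt
    exact lt_irrefl _ hlt

/-! ## The shape -/

/-- the only possible shape of the permutations with `π (n - 1) ≠ n - 1` -/
def sh (n q t a i : ℕ) : ℕ :=
  if i < q then a + i else if i < q + t then i - q else if i = q + t then n - 1
  else if i ≤ q + a then i - q - 1 else i - 1

lemma sh_inj {n q t a : ℕ} (h1 : t < a) (h2 : q + a < n) :
    Set.InjOn (sh n q t a) (Set.Iio n) := by
  intro i hi j hj h
  simp only [Set.mem_Iio] at hi hj
  unfold sh at h
  split_ifs at h <;> omega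

lemma sh_lt {n q t a : ℕ} (h1 : t < a) (h2 : q + a < n) : ∀ i < n, sh n q t a i < n := by
  intro i hi
  unfold sh
  split_ifs <;> omega

end Pool.Agent.T6.H3.SA
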