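import Pool.Agent.T6.H3.SA.A

/-!
MP_aa036a_co (helper3), part B: the shape of the permutations, and the structure theorem.
-/

set_option autoImplicit false

namespace Pool.Agent.T6.H3.SA

open Equiv

section

variable {n : ℕ} {f : ℕ → ℕ}

/-- after the position of the greatest entry the values increase -/
lemma inc_after (hf : Set.InjOn f (Set.Iio n)) (hfm : ∀ i < n, f i < n) (h3 : ¬ P3 f)
    {s : ℕ} (hsn : s < n) (hs : f s = n - 1) {i j : ℕ} (h1 : s < i) (h2 : i < j) (h4 : j < n) :
    f i < f j := by
  by_contra hc
  have h5 : f i ≠ f j := fun h => by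
    have := hf (show i ∈ Set.Iio n from h2.trans h4) (show j ∈ Set.Iio n from h4) h
    omega
  have h6 : f i ≠ f s := fun h => by
    have := hf (show i ∈ Set.Iio n from h2.trans h4) (show s ∈ Set.Iio n from hsn) h
    omega
  have h7 := hfm i (by omega)
  exact h3 ⟨s, i, j, h1, h2, by omega, by omega⟩

/-- the shape, if some entry after the greatest one is less than the first one -/
lemma shape (hf : Set.InjOn f (Set.Iio n)) (hfm : ∀ i < n, f i < n) (h3 : ¬ P3 f) (h4 : ¬ P4 f)
    {s : ℕ} (hs0 : 0 < s) (hsn : s + 1 < n) (hs : f s = n - 1) (hz : f (s + 1) < f 0) :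
    ∃ q t a, 1 ≤ q ∧ t < a ∧ q + a < n ∧ s = q + t ∧ ∀ i < n, f i = sh n q t a i := by
  classical
  have ne : ∀ i < n, ∀ j < n, i ≠ j → f i ≠ f j := fun i hi j hj hij h =>
    hij (hf (show i ∈ Set.Iio n from hi) (show j ∈ Set.Iio n from hj) h)
  have inc : ∀ i j, s < i → i < j → j < n → f i < f j := fun i j a b c =>
    inc_after hf hfm h3 (by omega) hs a b c
  have mx : ∀ i < n, i ≠ s → f i < n - 1 := by
    intro i hi his
    have h1 := hfm i hi
    have h2 := ne i hi s (by omega) his
    omega
  -- the first block
  have hex : ∃ j, j = s ∨ f j < f 0 := ⟨s, Or.inl rfl⟩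
  obtain ⟨q, hq1, hq2⟩ : ∃ q, (q = s ∨ f q < f 0) ∧ ∀ j < q, ¬ (j = s ∨ f j < f 0) :=
    ⟨Nat.find hex, Nat.find_spec hex, fun j hj => Nat.find_min hex hj⟩
  have hqs : q ≤ s := by
    by_contra hc
    exact hq2 s (by omega) (Or.inl rfl)
  have hq0 : 1 ≤ q := by
    rcases Nat.eq_zero_or_pos q with h | h
    · rw [h] at hq1
      rcases hq1 with h1 | h1 <;> omega
    · exact h
  have r1 : ∀ j < q, f 0 ≤ f j := by
    intro j hj
    have := hq2 j hj
    omega
  -- the entries after the greatest one
  have hex' : ∃ j, s < j ∧ (j = n ∨ f 0 < f j) := ⟨n, by omega, Or.inl rfl⟩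
  obtain ⟨e, ⟨he0, he1⟩, he2⟩ : ∃ e, (s < e ∧ (e = n ∨ f 0 < f e)) ∧
      ∀ j < e, ¬ (s < j ∧ (j = n ∨ f 0 < f j)) :=
    ⟨Nat.find hex', Nat.find_spec hex', fun j hj => Nat.find_min hex' hj⟩
  have hen : e ≤ n := by
    by_contra hc
    exact he2 n (by omega) ⟨by omega, Or.inl rfl⟩
  have hse : s + 1 < e := by
    by_contra hc
    have : e = s + 1 := by omega
    rw [this] at he1
    rcases he1 with h1 | h1 <;> omega
  have r3 : ∀ j, s < j → j < e → f j < f 0 := by
    intro j h1 h2
    have h5 := he2 j h2
    have h6 := ne j (by omega) 0 (by omega) (by omega)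
    by_contra hc
    exact h5 ⟨h1, Or.inr (by omega)⟩
  have r4 : ∀ j, e ≤ j → j < n → f 0 < f j := by
    intro j h1 h2
    rcases he1 with h5 | h5
    · omega
    · rcases Nat.eq_or_lt_of_le h1 with h6 | h6
      · rw [← h6]; exact h5
      · exact h5.trans (inc e j he0 h6 h2)
  -- comparisons
  have cA : ∀ i j, 0 < i → i < s → f i < f 0 → s < j → j < e → f i < f j := by
    intro i j h1 h2 h5 h6 h7
    by_contra hc
    have h8 := ne i (by omega) j (by omega) (by omega)
    exact h3 ⟨0, i, j, h1, by omega, by omega, h5⟩
  have r2 : ∀ j, q ≤ j → j < s → f j < f 0 := by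
    intro j h1 h2
    by_contra hc
    have h5 : f q < f 0 := by
      rcases hq1 with h | h
      · omega
      · exact h
    have h6 : q ≠ j := fun h => by rw [h] at h5; exact hc h5
    have h7 := cA q (s + 1) (by omega) (by omega) h5 (by omega) (by omega)
    exact h4 ⟨q, j, s, s + 1, by omega, h2, by omega, h7, by omega,
      by rw [hs]; exact mx j (by omega) (by omega)⟩
  have cB : ∀ i j, i < q → e ≤ j → j < n → f i < f j := by
    intro i j h1 h2 h5
    by_contra hc
    have h6 := ne i (by omega) j (by omega) (by omega)
    have h7 := r4 j h2 h5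
    have h8 : i ≠ 0 := fun h => by rw [h] at hc; exact hc h7
    exact h4 ⟨0, i, s, j, by omega, by omega, by omega, h7, by omega,
      by rw [hs]; exact mx i (by omega) (by omega)⟩
  have cC : ∀ i j, i < j → j < q → f i < f j := by
    intro i j h1 h2
    by_contra hc
    have h6 := ne i (by omega) j (by omega) (by omega)
    have h7 := r1 j h2
    exact h3 ⟨i, j, s + 1, h1, by omega, by omega, by omega⟩
  have cD : ∀ i j, q ≤ i → i < j → j < s → f i < f j := by
    intro i j h1 h2 h5
    by_contra hc
    have h6 := ne i (by omega) j (by omega) (by omega)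
    have h7 := r2 i h1 (by omega)
    exact h3 ⟨0, i, j, by omega, h2, by omega, h7⟩
  refine ⟨q, s - q, e - 1 - q, hq0, by omega, by omega, by omega, ?_⟩
  refine eq_of_order hf hfm (sh_inj (by omega) (by omega)) (sh_lt (by omega) (by omega)) ?_
  intro i hi j hj hlt
  unfold sh at hlt
  split_ifs at hlt <;> first
    | (exfalso; omega)
    | exact cC i j (by omega) (by omega)
    | exact cD i j (by omega) (by omega) (by omega)
    | exact inc i j (by omega) (by omega) hj
    | exact cB i j (by omega) (by omega) hj
    | exact cA i j (by omega) (by omega) (r2 i (by omega) (by omega)) (by omega) (by omega)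
    | exact lt_of_lt_of_le (r2 i (by omega) (by omega)) (r1 j (by omega))
    | exact (r2 i (by omega) (by omega)).trans (r4 j (by omega) hj)
    | exact lt_of_lt_of_le (r3 i (by omega) (by omega)) (r1 j (by omega))
    | (have hjs : j = s := by omega
       rw [hjs, hs]
       exact mx i hi (by omega))

/-- the square excludes all shapes except the rotations -/
lemma shape_sq {q t a : ℕ} (hq : 1 ≤ q) (hta : t < a) (hqa : q + a < n)
    (F : ∀ i < n, f i = sh n q t a i) (h3 : ¬ P3 (fun i => f (f i)))
    (h4 : ¬ P4 (fun i => f (f i))) : t = 0 ∧ q + a + 1 = n := by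
  have v1 : ∀ i, i < q → f i = a + i := by
    intro i h
    rw [F i (by omega)]; unfold sh; split_ifs <;> omega
  have v2 : ∀ i, q ≤ i → i < q + t → f i = i - q := by
    intro i h h'
    rw [F i (by omega)]; unfold sh; split_ifs <;> omega
  have v3 : f (q + t) = n - 1 := by
    rw [F _ (by omega)]; unfold sh; split_ifs <;> omega
  have v4 : ∀ i, q + t < i → i ≤ q + a → f i = i - q - 1 := by
    intro i h h'
    rw [F i (by omega)]; unfold sh; split_ifs <;> omega
  have v5 : ∀ i, q + a < i → i < n → f i = i - 1 := by
    intro i h h'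
    rw [F i (by omega)]; unfold sh; split_ifs <;> omega
  have finj : ∀ i < n, ∀ j < n, i ≠ j → f i ≠ f j := fun i hi j hj hij h =>
    hij (sh_inj hta hqa (show i ∈ Set.Iio n from hi) (show j ∈ Set.Iio n from hj)
      (by rw [← F i hi, ← F j hj, h]))
  have flt : ∀ i < n, f i < n := fun i hi => by rw [F i hi]; exact sh_lt hta hqa i hi
  by_contra hc
  rcases Nat.lt_or_ge (q + t) a with hsa | hsa
  · -- `s < a`
    rcases Nat.lt_or_ge (q + a + 1) n with hn | hn
    · -- 1342
      have w0 : f (f 0) = a - q - 1 := by
        rw [v1 0 (by omega), Nat.add_zero, v4 a (by omega) (by omega)]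
      have w1 : f (f (q + t)) = n - 2 := by
        rw [v3, v5 (n - 1) (by omega) (by omega)]; omega
      have w2 : f (f (q + t + q + 1)) = n - 1 := by
        rw [v4 (q + t + q + 1) (by omega) (by omega),
          show q + t + q + 1 - q - 1 = q + t by omega, v3]
      have w3 : a - 1 ≤ f (f (n - 1)) ∧ f (f (n - 1)) < n - 2 := by
        rw [v5 (n - 1) (by omega) (by omega)]
        rcases Nat.lt_or_ge (q + a + 2) n with h | h
        · rw [v5 (n - 1 - 1) (by omega) (by omega)]; omega
        · rw [v4 (n - 1 - 1) (by omega) (by omega)]; omega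
      exact h4 ⟨0, q + t, q + t + q + 1, n - 1, by omega, by omega, by omega,
        by simp only [w0]; omega, by simp only [w1]; omega, by simp only [w1, w2]; omega⟩
    · -- 321
      have ht : 1 ≤ t := by omega
      have w0 : f (f q) = a := by
        rw [v2 q le_rfl (by omega), Nat.sub_self, v1 0 (by omega)]; rfl
      have w1 : f (f (q + t)) = a - 1 := by
        rw [v3, v4 (n - 1) (by omega) (by omega)]; omega
      have w2 : f (f (2 * q + t)) = t - 1 := by
        rw [v4 (2 * q + t) (by omega) (by omega),
          show 2 * q + t - q - 1 = q + (t - 1) by omega, v2 _ (by omega) (by omega)]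
        omega
      exact h3 ⟨q, q + t, 2 * q + t, by omega, by omega, by simp only [w1, w2]; omega,
        by simp only [w0, w1]; omega⟩
  · -- `a ≤ s`
    have w0 : f (f (q + t - a)) = n - 1 := by
      rw [v1 (q + t - a) (by omega), show a + (q + t - a) = q + t by omega, v3]
    rcases Nat.lt_or_ge (q + a + 1) n with hn | hn
    · have w1 : f (f (q + t)) = n - 2 := by
        rw [v3, v5 (n - 1) (by omega) (by omega)]; omega
      have l1 := flt (q + t + 1) (by omega)
      have l2 := flt _ l1
      have n1 : f (f (q + t + 1)) ≠ f (f (q + t - a)) :=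
        finj _ l1 _ (flt _ (by omega)) (finj _ (by omega) _ (by omega) (by omega))
      have n2 : f (f (q + t + 1)) ≠ f (f (q + t)) :=
        finj _ l1 _ (flt _ (by omega)) (finj _ (by omega) _ (by omega) (by omega))
      exact h3 ⟨q + t - a, q + t, q + t + 1, by omega, by omega, by simp only [w1]; omega,
        by simp only [w0, w1]; omega⟩
    · have ht : 1 ≤ t := by omega
      have w1 : f (f (q + t)) = a - 1 := by
        rw [v3, v4 (n - 1) (by omega) (by omega)]; omega
      have w2 : f (f q) = a := by
        rw [v2 q le_rfl (by omega), Nat.sub_self, v1 0 (by omega)]; rfl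
      exact h3 ⟨q + t - a, q, q + t, by omega, by omega, by simp only [w1, w2]; omega,
        by simp only [w0, w2]; omega⟩

/-- the structure theorem -/
theorem structure_thm (hn : 3 ≤ n) {π : Perm ℕ} (hπ : π ∈ S n) (h1 : π (n - 1) ≠ n - 1)
    (h2 : ¬ (π (n - 1) = n - 2 ∧ π (n - 2) = n - 1)) :
    ∃ (k : ℕ) (hk : k ≤ n), 1 ≤ k ∧ k < n ∧ π = rot n k hk := by
  obtain ⟨hfix, g3, g4, q3, q4⟩ := hπ
  have hinj : Set.InjOn π (Set.Iio n) := π.injective.injOn
  have hlt : ∀ i < n, π i < n := by
    intro i hi
    by_contra hc
    have := hfix (π i) (by omega)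
    have := π.injective this
    omega
  obtain ⟨s, hs⟩ : ∃ s, π s = n - 1 := π.surjective (n - 1)
  have hsn : s < n := by
    by_contra hc
    have := hfix s (by omega)
    omega
  have hsn' : s + 1 < n := by
    rcases Nat.lt_or_ge (s + 1) n with h | h
    · exact h
    · have : s = n - 1 := by omega
      rw [this] at hs
      exact absurd hs h1
  have inc : ∀ i j, s < i → i < j → j < n → π i < π j := fun i j a b c =>
    inc_after hinj hlt g3 hsn hs a b c
  have ext : ∀ k (hk : k ≤ n), (∀ i < n, π i = rf n k i) → π = rot n k hk := by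
    intro k hk h
    ext i
    show π i = rf n k i
    rcases Nat.lt_or_ge i n with hi | hi
    · exact h i hi
    · rw [hfix i hi]; unfold rf; split_ifs <;> omega
  by_cases hz : 0 < s ∧ π (s + 1) < π 0
  · obtain ⟨q, t, a, hq, hta, hqa, -, F⟩ := shape hinj hlt g3 g4 hz.1 hsn' hs hz.2
    obtain ⟨ht, hqn⟩ := shape_sq hq hta hqa F q3 q4
    refine ⟨a, by omega, by omega, by omega, ext a (by omega) fun i hi => ?_⟩
    rw [F i hi]
    unfold sh rf
    split_ifs <;> omega
  · -- all entries before the greatest one are less than all entries after it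
    have cmp : ∀ i j, i < s → s < j → j < n → π i < π j := by
      intro i j hi hj hjn
      by_contra hc
      have h5 : π i ≠ π j := fun h => by have := π.injective h; omega
      have h6 : π 0 < π (s + 1) := by
        have : π 0 ≠ π (s + 1) := fun h => by have := π.injective h; omega
        omega
      have h7 : π (s + 1) ≤ π j := by
        rcases Nat.eq_or_lt_of_le (show s + 1 ≤ j by omega) with h | h
        · rw [h]
        · exact (inc _ _ (by omega) h hjn).le
      have h8 : i ≠ 0 := fun h => by rw [h] at hc; omega
      have h9 : π i < n - 1 := by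
        have : π i ≠ π s := fun h => by have := π.injective h; omega
        have := hlt i (by omega)
        omega
      exact g4 ⟨0, i, s, j, by omega, hi, hj, by omega, by omega, by omega⟩
    have val : ∀ j, s < j → j < n → π j = j - 1 := by
      intro j hj hjn
      rw [← rank hinj hlt hjn]
      have : ((Finset.range n).filter fun i => π i < π j) = (Finset.range j).erase s := by
        ext i
        simp only [Finset.mem_filter, Finset.mem_range, Finset.mem_erase]
        constructor
        · rintro ⟨hi, hlt'⟩
          refine ⟨?_, ?_⟩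
          · rintro rfl
            have := hlt j hjn
            omega
          · by_contra hc
            rcases Nat.eq_or_lt_of_le (show j ≤ i by omega) with h | h
            · rw [h] at hlt'; exact lt_irrefl _ hlt'
            · have := inc j i hj h hi
              omega
        · rintro ⟨his, hij⟩
          refine ⟨by omega, ?_⟩
          rcases Nat.lt_or_ge i s with h | h
          · exact cmp i j h hj hjn
          · exact inc i j (by omega) hij hjn
      rw [this, Finset.card_erase_of_mem (Finset.mem_range.2 hj), Finset.card_range]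
    rcases Nat.eq_zero_or_pos s with hs0 | hs0
    · refine ⟨n - 1, by omega, by omega, by omega, ext (n - 1) (by omega) fun i hi => ?_⟩
      rcases Nat.eq_zero_or_pos i with h | h
      · rw [h, ← hs0, hs, hs0]; unfold rf; split_ifs <;> omega
      · rw [val i (by omega) hi]; unfold rf; split_ifs <;> omega
    · exfalso
      have hs3 : s + 2 < n := by
        by_contra hc
        apply h2
        have h5 : s = n - 2 := by omega
        refine ⟨?_, by rw [← h5]; exact hs⟩
        rw [val (n - 1) (by omega) (by omega)]
        omega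
      have small : ∀ i < s, π i < s := by
        intro i hi
        have := cmp i (s + 1) hi (by omega) hsn'
        rw [val (s + 1) (by omega) hsn'] at this
        exact this
      have w0 : π (π 0) < s := small _ (small 0 hs0)
      have w1 : π (π s) = n - 2 := by rw [hs, val (n - 1) (by omega) (by omega)]; omega
      have w2 : π (π (s + 1)) = n - 1 := by
        rw [val (s + 1) (by omega) (by omega), Nat.add_sub_cancel, hs]
      have w3 : π (π (s + 2)) = s := by
        rw [val (s + 2) (by omega) (by omega), show s + 2 - 1 = s + 1 by omega,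
          val (s + 1) (by omega) (by omega)]
        omega
      exact q4 ⟨0, s, s + 1, s + 2, by omega, by omega, by omega, by simp only [w3]; omega,
        by simp only [w1, w3]; omega, by simp only [w1, w2]; omega⟩

end

end Pool.Agent.T6.H3.SA
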